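import Pool.Agent.Y5.V.Stm

/-!
# Scaling of the damped Euler equations
-/

set_option autoImplicit false

open Set Filter Topology
open scoped ComplexConjugate

namespace Pool.Agent.Y977.VL.Scl

open Pool.Agent.Y5.V
open Pool.Agent.Y6.M (Z3 C3 Coef dt kc cj nsq len adv leray IsField energy)

theorem dt_smul (c : ℂ) (a b : C3) : dt a (fun j => c * b j) = c * dt a b := by
  unfold dt
  rw [Finset.mul_sum]
  refine Finset.sum_congr rfl fun j _ => ?_
  ring

theorem dt_smul' (c : ℂ) (a b : C3) : dt (fun j => c * a j) b = c * dt a b := by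
  unfold dt
  rw [Finset.mul_sum]
  refine Finset.sum_congr rfl fun j _ => ?_
  ring

theorem adv_smul (c : ℂ) (V : Coef) (k : Z3) :
    adv (fun k j => c * V k j) k = fun j => (c * c) * adv V k j := by
  funext j
  unfold adv
  rw [← tsum_mul_left]
  refine tsum_congr fun p => ?_
  rw [dt_smul']
  ring

theorem leray_smul (c : ℂ) (k : Z3) (w : C3) (j : Fin 3) :
    leray k (fun j => c * w j) j = c * leray k w j := by
  unfold leray
  rw [dt_smul]
  ring

theorem rhs_smul (d : Z3 → ℝ) (a : ℝ) (V : Coef) (k : Z3) (j : Fin 3) :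
    rhs (fun k => a * d k) (fun k j => (a : ℂ) * V k j) k j = (a : ℂ) * ((a : ℂ) * rhs d V k j) := by
  unfold rhs
  rw [adv_smul, leray_smul]
  push_cast
  ring

theorem field_smul (a : ℝ) (ha : 0 < a) (V : Coef) (h : IsField V) :
    IsField (fun k j => (a : ℂ) * V k j) where
  zero := by
    funext j
    have := congrFun h.zero j
    simp only [this, Pi.zero_apply, mul_zero]
  real k j := by
    rw [h.real k j, map_mul, Complex.conj_ofReal]
  div k := by
    rw [dt_smul, h.div k, mul_zero]
  smooth q := by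
    obtain ⟨M, hM⟩ := h.smooth q
    refine ⟨a * M, fun k j => ?_⟩
    rw [norm_mul, Complex.norm_real, Real.norm_eq_abs, abs_of_pos ha]
    have := mul_le_mul_of_nonneg_left (hM k j) ha.le
    linarith

theorem t_SCL : S_SCL := by
  intro d a T V ha h
  have hmem : ∀ t ∈ Ico 0 (T / a), a * t ∈ Ico 0 T := by
    intro t ht
    refine ⟨mul_nonneg ha.le ht.1, ?_⟩
    have := ht.2
    rw [lt_div_iff₀ ha] at this
    linarith
  refine ⟨fun t ht => field_smul a ha _ (h.field _ (hmem t ht)), fun q T' hT' => ?_,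
    fun k hk j t ht => ?_⟩
  · have hT : a * T' < T := by
      rw [lt_div_iff₀ ha] at hT'
      linarith
    obtain ⟨M, hM⟩ := h.reg q (a * T') hT
    refine ⟨a * M, fun t ht k j => ?_⟩
    have h1 := hM (a * t) ⟨mul_nonneg ha.le ht.1, mul_le_mul_of_nonneg_left ht.2 ha.le⟩ k j
    rw [norm_mul, Complex.norm_real, Real.norm_eq_abs, abs_of_pos ha]
    have := mul_le_mul_of_nonneg_left h1 ha.le
    linarith
  · have h1 := h.eqn k hk j (a * t) (hmem t ht)
    have h2 : HasDerivWithinAt (fun s : ℝ => a * s) a (Ico 0 (T / a)) t := by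
      have := (hasDerivWithinAt_id t (Ico 0 (T / a))).const_mul a
      simpa using this
    have h3 := HasDerivWithinAt.scomp t h1 h2 hmem
    have h4 := h3.const_mul (a : ℂ)
    rw [rhs_smul]
    exact h4

end Pool.Agent.Y977.VL.Scl
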